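import Pool.Agent.H59.L.S8.W558.S.All
import Pool.Agent.H59.L.S8.W558.Var

set_option autoImplicit false
set_option linter.unusedVariables false

universe u

open AlgebraicGeometry CategoryTheory Pool.Agent.H920R2

namespace Pool.Agent.W558

section defs

variable {k E : Type u} [Field k] [Field E] [Algebra k E]

/-- The coordinate ring `k[H 0 / H i, ..., H N / H i]` of the affine chart `H i ≠ 0` of the
projective variety with the homogeneous coordinates `H 0, ..., H N`. -/
def chart (k : Type u) {E : Type u} [Field k] [Field E] [Algebra k E] {N : ℕ}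
    (H : Fin (N + 1) → E) (i : Fin (N + 1)) : Subalgebra k E :=
  Algebra.adjoin k (Set.range fun j => H j / H i)

/-- A log smooth projective model for the functions `g b` in the function field `E`: a smooth
projective variety `V` with function field `E`, given by its homogeneous coordinates `H i` in `E`,
and divisors `D l` on `V`, with the local equations `x i l` on the charts, which have simple
normal crossings, such that each `g b` is on each chart the product of a unit and of integral
powers of the `x i l`, with exponents independent of the chart. -/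
structure IsLogModel {m N L : ℕ} (g : Fin m → E) (H : Fin (N + 1) → E)
    (x : Fin (N + 1) → Fin L → E) (Γ : Fin m → Fin L → ℤ) : Prop where
  /-- the homogeneous coordinates -/
  H0 : ∀ i, H i ≠ 0
  /-- the charts are smooth and their field of fractions is `E` -/
  smooth : ∀ i, Algebra.Smooth k (chart k H i)
  frac : ∀ i, ∀ f : E, ∃ a ∈ chart k H i, ∃ b ∈ chart k H i, b ≠ 0 ∧ f = a * b⁻¹
  /-- the local equations are regular functions, and define the same divisors on the
  intersections of the charts -/
  mem : ∀ i l, x i l ∈ chart k H i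
  ne : ∀ i l, x i l ≠ 0
  glue : ∀ i j l, x j l / x i l ∈ Algebra.adjoin k ((chart k H i : Set E) ∪ {H i / H j})
  /-- simple normal crossings: at all points of a chart (with values in any field) there are
  tangent vectors which are dual to the local equations vanishing there -/
  snc : ∀ i, SNC (chart k H i) (x i)
  /-- the functions are monomials in the local equations up to units -/
  mono : ∀ b i, ∃ w ∈ chart k H i, w⁻¹ ∈ chart k H i ∧ w ≠ 0 ∧ g b = w * ∏ l, x i l ^ Γ b l

end defs

/-- The field `E` has log smooth projective models: for each finite family of nonzero elements of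
`E` there is a smooth projective variety with function field `E` and a divisor with simple normal
crossings which contains their zeros and poles (see `IsLogModel`). -/
def HasLogModels (k E : Type u) [Field k] [Field E] [Algebra k E] : Prop :=
  ∀ (m : ℕ) (g : Fin m → E), (∀ b, g b ≠ 0) →
    ∃ (N L : ℕ) (H : Fin (N + 1) → E) (x : Fin (N + 1) → Fin L → E) (Γ : Fin m → Fin L → ℤ),
      IsLogModel (k := k) g H x Γ

theorem IsLogModel.exists_LM {k E : Type u} [Field k] [Field E] [Algebra k E] {m N L : ℕ}
    {g : Fin m → E} {H : Fin (N + 1) → E} {x : Fin (N + 1) → Fin L → E} {Γ : Fin m → Fin L → ℤ}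
    (h : IsLogModel (k := k) g H x Γ) :
    ∃ (M : LM (⊥ : Subalgebra k E) ⊤ (Fin (N + 1)) (Fin L)), Fn M g Γ ∧
      ∀ t (x : E), ∃ a ∈ M.A t, ∃ b ∈ M.A t, b ≠ 0 ∧ x = a * b⁻¹ := by
  set A : Fin (N + 1) → Subalgebra k E := chart k H with hA
  have hH := h.H0
  have hmem : ∀ i j, H j / H i ∈ A i := fun i j => Algebra.subset_adjoin ⟨j, rfl⟩
  have hgl : ∀ t t' : Fin (N + 1), ∀ f ∈ A t', ∃ n : ℕ, (H t' / H t) ^ n * f ∈ A t := by
    intro t t' f hf
    have hmono : ∀ (n m : ℕ) (f : E), n ≤ m → (H t' / H t) ^ n * f ∈ A t →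
        (H t' / H t) ^ m * f ∈ A t := by
      intro n m f hnm h
      obtain ⟨e, rfl⟩ := Nat.exists_eq_add_of_le hnm
      rw [add_comm, pow_add, mul_assoc]
      exact (A t).mul_mem ((A t).pow_mem (hmem t t') e) h
    induction hf using Algebra.adjoin_induction with
    | mem x hx =>
      obtain ⟨j, rfl⟩ := hx
      refine ⟨1, ?_⟩
      have h1 : (H t' / H t) ^ 1 * (H j / H t') = H j / H t := by
        have := hH t'
        field_simp
      change (H t' / H t) ^ 1 * (H j / H t') ∈ A t
      rw [h1]
      exact hmem t j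
    | algebraMap r =>
      exact ⟨0, by rw [pow_zero, one_mul]; exact (A t).algebraMap_mem r⟩
    | add x y _ _ hx hy =>
      obtain ⟨n, hn⟩ := hx
      obtain ⟨m, hm⟩ := hy
      refine ⟨max n m, ?_⟩
      rw [mul_add]
      exact (A t).add_mem (hmono _ _ _ (le_max_left _ _) hn) (hmono _ _ _ (le_max_right _ _) hm)
    | mul x y _ _ hx hy =>
      obtain ⟨n, hn⟩ := hx
      obtain ⟨m, hm⟩ := hy
      refine ⟨n + m, ?_⟩
      rw [pow_add, mul_mul_mul_comm]
      exact (A t).mul_mem hn hm
  have hgi : ∀ t t' l, ∃ n : ℕ, (H t' / H t) ^ n * (x t' l / x t l) ∈ A t := by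
    intro t t' l
    have h1 : x t' l / x t l ∈ adj (A t) (H t' / H t)⁻¹ := by
      have h2 : Algebra.adjoin k ((chart k H t : Set E) ∪ ({H t / H t'} : Set E)) ≤
          adj (A t) (H t' / H t)⁻¹ := by
        refine Algebra.adjoin_le ?_
        rintro y (hy | hy)
        · exact le_adj (A t) _ hy
        · rw [Set.mem_singleton_iff.1 hy]
          have h4 := self_mem_adj (A t) (H t' / H t)⁻¹
          rwa [inv_div] at h4 ⊢
      exact h2 (h.glue t t' l)
    obtain ⟨n, hn⟩ := (mem_adj_inv (hmem t t') (div_ne_zero (hH t') (hH t))).1 h1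
    exact ⟨n, by rwa [mul_comm]⟩
  let M : LM (⊥ : Subalgebra k E) ⊤ (Fin (N + 1)) (Fin L) :=
    { A := A
      H := H
      x := x
      sm := h.smooth
      base := fun t => bot_le
      H0 := hH
      HR := fun _ => Algebra.mem_top
      rt := fun t t' => hmem t t'
      gl := hgl
      dn := fun _ _ _ => ⟨0, Algebra.mem_top⟩
      cv := by
        intro V hV
        obtain ⟨t, ht⟩ := Finite.exists_max (fun t => V.valuation (H t))
        refine ⟨t, ?_⟩
        intro f hf
        have h0 : V.valuation (H t) ≠ 0 := (map_ne_zero _).2 (hH t)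
        have hf' : f ∈ Algebra.adjoin k (Set.range fun j => H j / H t) := hf
        induction hf' using Algebra.adjoin_induction with
        | mem x hx =>
          obtain ⟨j, rfl⟩ := hx
          change H j / H t ∈ V
          rw [← V.valuation_le_one_iff, map_div₀]
          exact (div_le_one₀ (zero_lt_iff.2 h0)).2 (ht j)
        | algebraMap r => exact hV _ ((⊥ : Subalgebra k E).algebraMap_mem r)
        | add x y hx' hy' hx hy => exact V.add_mem _ _ (hx hx') (hy hy')
        | mul x y hx' hy' hx hy => exact V.mul_mem _ _ (hx hx') (hy hy')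
      xA := h.mem
      x0 := h.ne
      gi := hgi
      snc := h.snc }
  refine ⟨M, ?_, h.frac⟩
  intro b t
  obtain ⟨w, hw, hw', hw0, h1⟩ := h.mono b t
  exact ⟨w, hw0, hw, hw', h1⟩

/-- The torus part of the argument, over an arbitrary base with log smooth models. -/
theorem final_log (k A : Type u) [Field k] [CommRing A]
    [IsDomain A] [Algebra k A] [Algebra.FiniteType k A] (r : ℕ)
    (𝒜 : (Fin r → ℤ) → Submodule k A) [GradedAlgebra 𝒜] (hL : HasLogModels k (homFrac 𝒜)) :
    HasResolution (X := Spec (CommRingCat.of A))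
      (Spec.map (CommRingCat.ofHom (algebraMap k A))) := by
  obtain ⟨n, z, m, h, a, hz, hh, hA⟩ := all_gr k A r 𝒜
  obtain ⟨N, L, H, x, Γ, hlog⟩ := hL m h hh
  obtain ⟨M, hΓ, -⟩ := hlog.exists_LM
  obtain ⟨T1, I1, i1, i2, M1, Γ1, hΓ1⟩ :=
    all_tor k (homFrac 𝒜) (FractionRing A) _ _ (Fin m) M h Γ hΓ n z hz
  have hmono := fn_mono hΓ1 (ι := Fin m)
    (fun b => Sum.elim (fun b' => if b' = b then (1 : ℤ) else 0) (a b))
  have e1 : (fun i => ∏ b : Fin m ⊕ Fin n, (Sum.elim (fun b => algebraMap (homFrac 𝒜)
      (FractionRing A) (h b)) z) b ^ (Sum.elim (fun b' => if b' = i then (1 : ℤ) else 0) (a i)) b)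
      = fun b => (h b : FractionRing A) * ∏ j, z j ^ a b j := by
    funext b
    rw [Fintype.prod_sum_type]
    congr 1
    rw [Finset.prod_eq_single b]
    · simp
    · intro b' _ hb'
      simp [hb']
    · simp
  rw [e1] at hmono
  let g : A →ₐ[k] FractionRing A := IsScalarTower.toAlgHom k A (FractionRing A)
  have hfr : ∀ x : FractionRing A, ∃ a ∈ g.range, ∃ b ∈ g.range, b ≠ 0 ∧ x = a * b⁻¹ := by
    intro x
    obtain ⟨a, b, hb, rfl⟩ := IsFractionRing.div_surjective (A := A) x
    refine ⟨_, ⟨a, rfl⟩, _, ⟨b, rfl⟩, ?_, ?_⟩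
    · exact (FaithfulSMul.algebraMap_eq_zero_iff A (FractionRing A)).not.2
        (nonZeroDivisors.ne_zero hb)
    · rw [div_eq_mul_inv]
      rfl
  obtain ⟨T2, I2, j1, j2, M2, Γ2, -, -⟩ := all_restr k (FractionRing A) T1 I1 (Fin m) M1 _ _ hmono
    Set.univ g.range (by rw [Set.image_univ]; exact hA) hfr
  exact hasResolution_of_LM g (IsFractionRing.injective A (FractionRing A)) M2

end Pool.Agent.W558
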